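import Pool.Agent.V8H88.SN.Small

/-!
# Primes of norm 7, 8, 9
-/

set_option autoImplicit false
set_option linter.unusedSimpArgs false

namespace Pool.Agent.V8H88.SN

open NumberField Polynomial

section

variable {E : Type} [Field E] [NumberField E] {q : ℕ} {t : ℝ} {a w : E}

theorem Eigenvalue.sq_ne (h : Eigenvalue E q t a w) (N : ℕ) (hx : a ^ 2 ≠ N * w) (ι : E →+* ℂ) :
    ‖ι a‖ ^ 2 ≠ N := by
  intro hN
  have h1 := h.sq_embed ι
  rw [hN] at h1
  have h2 : ι (sq a w) = ι ((N : ℕ) : E) := by rw [h1, map_natCast]; simp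
  have h3 : sq a w = (N : E) := ι.injective h2
  apply hx
  rw [← h3, sq, mul_assoc, inv_mul_cancel₀ h.w_ne, mul_one]

/-- norm 7: at most `21/25` of the conjugates, if `|a|² ≠ 29` -/
theorem Eigenvalue.seven (h : Eigenvalue E 7 (7 / 64) a w) (hx : a ^ 2 ≠ 29 * w) :
    25 * Nat.card {ι : E →+* ℂ // Fails 7 (ι a)} ≤ 21 * Module.finrank ℚ E := by
  refine h.share_le ((X - C 28) ^ 2 * (X - C 29) ^ 3) (28 ^ 2 * 29 ^ 3) 0.04 (by norm_num) (by norm_num) (by norm_num)
    (by norm_num) (by norm_num) (by norm_num) ?_ ?_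
  · intro x hx0 hx1
    have hx1' : x ≤ 28 := by norm_num at hx1; linarith
    have e : aeval x ((X - C 28) ^ 2 * (X - C 29) ^ 3 : ℤ[X]) = (x - 28) ^ 2 * (x - 29) ^ 3 := by
      simp only [map_mul, map_pow, map_sub, map_add, aeval_X, aeval_C]; norm_num
    have e2 : (x - 28) ^ 2 * (x - 29) ^ 3 = -((28 - x) ^ 2 * (29 - x) ^ 3) := by ring
    have h1 : 0 ≤ 28 - x := by linarith
    have h2 : 0 ≤ 29 - x := by linarith
    rw [e, e2, abs_neg, abs_of_nonneg (by positivity)]
    exact mul_le_mul (pow_le_pow_left₀ h1 (by linarith) 2) (pow_le_pow_left₀ h2 (by linarith) 3) (by positivity)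
      (by norm_num)
  · intro ι hι
    have hne := h.sq_ne 29 (by exact_mod_cast hx) ι
    rw [fails_iff] at hι
    have hT : ((7 : ℕ) : ℝ) ^ (7 / 64 : ℝ) ≤ 1.2372 := rpow_seven 7 (by norm_num) (by norm_num)
    have hB := h.sq_le (by norm_num) (by norm_num) hT ι
    set x := ‖ι a‖ ^ 2 with hx
    have h1 : 28 < x := by norm_num at hι; linarith
    have h2 : x ≤ 29.288 := le_trans hB (by norm_num)
    have e : aeval x ((X - C 28) ^ 2 * (X - C 29) ^ 3 : ℤ[X]) = (x - 28) ^ 2 * (x - 29) ^ 3 := by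
      simp only [map_mul, map_pow, map_sub, map_add, aeval_X, aeval_C]; norm_num
    rw [e]
    set y := x - 28 with hy
    have hxy : x - 29 = y - 1 := by rw [hy]; ring
    have hy0 : 0 < y := by linarith
    have hy1 : y ≤ 1.288 := by linarith
    have hyne : y - 1 ≠ 0 := by
      intro h0
      apply hne
      push_cast
      linarith
    rw [hxy]
    refine ⟨mul_ne_zero (pow_ne_zero _ hy0.ne') (pow_ne_zero _ hyne), ?_⟩
    rcases le_total y 1 with h3 | h3
    · have e3 : y ^ 2 * (y - 1) ^ 3 = -(y ^ 2 * (1 - y) ^ 3) := by ring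
      have h4 : 0 ≤ 1 - y := by linarith
      rw [e3, abs_neg, abs_of_nonneg (by positivity)]
      have h5 : 0 ≤ (1 - y) * (0.12 + 1.2 * y - y ^ 2) := mul_nonneg h4 (by nlinarith)
      have h6 : 0 ≤ (y - 0.4) ^ 2 * (0.096 + (1 - y) * (0.12 + 1.2 * y - y ^ 2)) :=
        mul_nonneg (sq_nonneg _) (by linarith)
      nlinarith
    · have h4 : 0 ≤ y - 1 := by linarith
      rw [abs_of_nonneg (by positivity)]
      calc y ^ 2 * (y - 1) ^ 3 ≤ 1.288 ^ 2 * 0.288 ^ 3 :=
            mul_le_mul (pow_le_pow_left₀ hy0.le hy1 2) (pow_le_pow_left₀ h4 (by linarith) 3) (by positivity)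
              (by norm_num)
        _ ≤ 0.04 := by norm_num

/-- norm 8: at most `91/100` of the conjugates, if `|a|² ≠ 33` -/
theorem Eigenvalue.eight (h : Eigenvalue E 8 (7 / 64) a w) (hx : a ^ 2 ≠ 33 * w) :
    100 * Nat.card {ι : E →+* ℂ // Fails 8 (ι a)} ≤ 91 * Module.finrank ℚ E := by
  refine h.share_le ((X - C 32) * (X - C 33) ^ 2 * (X - C 34)) (32 * 33 ^ 2 * 34) 0.25 (by norm_num) (by norm_num)
    (by norm_num) (by norm_num) (by norm_num) (by norm_num) ?_ ?_
  · intro x hx0 hx1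
    have hx1' : x ≤ 32 := by norm_num at hx1; linarith
    have e : aeval x ((X - C 32) * (X - C 33) ^ 2 * (X - C 34) : ℤ[X]) = (x - 32) * (x - 33) ^ 2 * (x - 34) := by
      simp only [map_mul, map_pow, map_sub, map_add, aeval_X, aeval_C]; norm_num
    have e2 : (x - 32) * (x - 33) ^ 2 * (x - 34) = (32 - x) * (33 - x) ^ 2 * (34 - x) := by ring
    have h1 : 0 ≤ 32 - x := by linarith
    have h2 : 0 ≤ 33 - x := by linarith
    have h3 : 0 ≤ 34 - x := by linarith
    rw [e, e2, abs_of_nonneg (by positivity)]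
    exact mul_le_mul (mul_le_mul (by linarith) (pow_le_pow_left₀ h2 (by linarith) 2) (by positivity) (by norm_num))
      (by linarith) h3 (by norm_num)
  · intro ι hι
    have hne := h.sq_ne 33 (by exact_mod_cast hx) ι
    rw [fails_iff] at hι
    have hT : ((8 : ℕ) : ℝ) ^ (7 / 64 : ℝ) ≤ 1.2554 := rpow_seven 8 (by norm_num) (by norm_num)
    have hB := h.sq_le (by norm_num) (by norm_num) hT ι
    set x := ‖ι a‖ ^ 2 with hx
    have h1 : 32 < x := by norm_num at hι; linarith
    have h2 : x ≤ 33.69 := le_trans hB (by norm_num)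
    have e : aeval x ((X - C 32) * (X - C 33) ^ 2 * (X - C 34) : ℤ[X]) = (x - 32) * (x - 33) ^ 2 * (x - 34) := by
      simp only [map_mul, map_pow, map_sub, map_add, aeval_X, aeval_C]; norm_num
    rw [e]
    set s := x - 33 with hs
    have e1 : x - 32 = s + 1 := by rw [hs]; ring
    have e2 : x - 34 = s - 1 := by rw [hs]; ring
    have s0 : 0 < s + 1 := by linarith
    have s1 : s - 1 < 0 := by linarith
    have hsne : s ≠ 0 := by
      intro h0
      apply hne
      push_cast
      linarith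
    rw [e1, e2]
    refine ⟨mul_ne_zero (mul_ne_zero s0.ne' (pow_ne_zero _ hsne)) s1.ne, ?_⟩
    have e3 : (s + 1) * s ^ 2 * (s - 1) = -(s ^ 2 * (1 - s ^ 2)) := by ring
    have h3 : 0 ≤ 1 - s ^ 2 := by nlinarith
    rw [e3, abs_neg, abs_of_nonneg (by positivity)]
    nlinarith [sq_nonneg (s ^ 2 - 1 / 2)]

/-- norm 9: at most `23/25` of the conjugates, if `|a|² ≠ 37, 38` -/
theorem Eigenvalue.nine (h : Eigenvalue E 9 (7 / 64) a w) (hx : a ^ 2 ≠ 37 * w) (hx' : a ^ 2 ≠ 38 * w) :
    25 * Nat.card {ι : E →+* ℂ // Fails 9 (ι a)} ≤ 23 * Module.finrank ℚ E := by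
  refine h.share_le ((X - C 36) * (X - C 37) * (X - C 38)) (36 * 37 * 38) 0.386 (by norm_num) (by norm_num)
    (by norm_num) (by norm_num) (by norm_num) (by norm_num) ?_ ?_
  · intro x hx0 hx1
    have hx1' : x ≤ 36 := by norm_num at hx1; linarith
    have e : aeval x ((X - C 36) * (X - C 37) * (X - C 38) : ℤ[X]) = (x - 36) * (x - 37) * (x - 38) := by
      simp only [map_mul, map_pow, map_sub, map_add, aeval_X, aeval_C]; norm_num
    have e2 : (x - 36) * (x - 37) * (x - 38) = -((36 - x) * (37 - x) * (38 - x)) := by ring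
    have h1 : 0 ≤ 36 - x := by linarith
    have h2 : 0 ≤ 37 - x := by linarith
    have h3 : 0 ≤ 38 - x := by linarith
    rw [e, e2, abs_neg, abs_of_nonneg (by positivity)]
    exact mul_le_mul (mul_le_mul (by linarith) (by linarith) h2 (by norm_num))
      (by linarith) h3 (by norm_num)
  · intro ι hι
    have hne := h.sq_ne 37 (by exact_mod_cast hx) ι
    have hne' := h.sq_ne 38 (by exact_mod_cast hx') ι
    rw [fails_iff] at hι
    have hT : ((9 : ℕ) : ℝ) ^ (7 / 64 : ℝ) ≤ 1.2718 := rpow_seven 9 (by norm_num) (by norm_num)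
    have hB := h.sq_le (by norm_num) (by norm_num) hT ι
    set x := ‖ι a‖ ^ 2 with hx
    have h1 : 36 < x := by norm_num at hι; linarith
    have h2 : x ≤ 38.125 := le_trans hB (by norm_num)
    have e : aeval x ((X - C 36) * (X - C 37) * (X - C 38) : ℤ[X]) = (x - 36) * (x - 37) * (x - 38) := by
      simp only [map_mul, map_pow, map_sub, map_add, aeval_X, aeval_C]; norm_num
    rw [e]
    set s := x - 37 with hs
    have e1 : x - 36 = s + 1 := by rw [hs]; ring
    have e2 : x - 38 = s - 1 := by rw [hs]; ring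
    have s0 : 0 < s + 1 := by linarith
    have s1 : s ≤ 1.125 := by linarith
    have hsne : s ≠ 0 := by
      intro h0
      apply hne
      push_cast
      linarith
    have hsne' : s - 1 ≠ 0 := by
      intro h0
      apply hne'
      push_cast
      linarith
    rw [e1, e2]
    refine ⟨mul_ne_zero (mul_ne_zero s0.ne' hsne) hsne', ?_⟩
    have e3 : (s + 1) * s * (s - 1) = s ^ 3 - s := by ring
    rw [e3, abs_le]
    have h3 : 0 ≤ (s - 0.577) ^ 2 * (s + 1.154) := mul_nonneg (sq_nonneg _) (by linarith)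
    have h4 : 0 ≤ (s + 0.577) ^ 2 * (1.154 - s) := mul_nonneg (sq_nonneg _) (by linarith)
    constructor
    · nlinarith
    · nlinarith

/-- norm 11: at most `249/250` of the conjugates, if `|a|²` is none of five values -/
theorem Eigenvalue.eleven (h : Eigenvalue E 11 (7 / 64) a w) (h45 : a ^ 2 ≠ 45 * w) (h46 : a ^ 2 ≠ 46 * w)
    (h47 : a ^ 2 ≠ 47 * w) (hquad : a ^ 4 - 91 * a ^ 2 * w + 2069 * w ^ 2 ≠ 0) :
    250 * Nat.card {ι : E →+* ℂ // Fails 11 (ι a)} ≤ 249 * Module.finrank ℚ E := by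
  refine h.share_le ((X - C 44) * (X - C 45) * (X - C 46) * (X - C 47) * (X ^ 2 - C 91 * X + C 2069))
    (44 * 45 * 46 * 47 * 2069) 0.906 (by norm_num) (by norm_num)
    (by norm_num) (by norm_num) (by norm_num) (by norm_num) ?_ ?_
  · intro x hx0 hx1
    have hx1' : x ≤ 44 := by norm_num at hx1; linarith
    have e : aeval x ((X - C 44) * (X - C 45) * (X - C 46) * (X - C 47) * (X ^ 2 - C 91 * X + C 2069) : ℤ[X]) =
        (x - 44) * (x - 45) * (x - 46) * (x - 47) * (x ^ 2 - 91 * x + 2069) := by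
      simp only [map_mul, map_pow, map_sub, map_add, aeval_X, aeval_C]; norm_num
    have e2 : (x - 44) * (x - 45) * (x - 46) * (x - 47) * (x ^ 2 - 91 * x + 2069) =
        (44 - x) * (45 - x) * (46 - x) * (47 - x) * (x ^ 2 - 91 * x + 2069) := by ring
    have h1 : 0 ≤ 44 - x := by linarith
    have h2 : 0 ≤ 45 - x := by linarith
    have h3 : 0 ≤ 46 - x := by linarith
    have h4 : 0 ≤ 47 - x := by linarith
    have h5 : 0 ≤ x ^ 2 - 91 * x + 2069 := by nlinarith
    rw [e, e2, abs_of_nonneg (by positivity)]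
    have k1 : (44 - x) * (45 - x) ≤ 44 * 45 := mul_le_mul (by linarith) (by linarith) h2 (by norm_num)
    have k2 : (44 - x) * (45 - x) * (46 - x) ≤ 44 * 45 * 46 :=
      mul_le_mul k1 (by linarith) h3 (by norm_num)
    have k3 : (44 - x) * (45 - x) * (46 - x) * (47 - x) ≤ 44 * 45 * 46 * 47 :=
      mul_le_mul k2 (by linarith) h4 (by norm_num)
    exact mul_le_mul k3 (by nlinarith) h5 (by norm_num)
  · intro ι hι
    have hne := h.sq_ne 45 (by exact_mod_cast h45) ι
    have hne' := h.sq_ne 46 (by exact_mod_cast h46) ι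
    have hne'' := h.sq_ne 47 (by exact_mod_cast h47) ι
    have hq : (‖ι a‖ ^ 2) ^ 2 - 91 * ‖ι a‖ ^ 2 + 2069 ≠ 0 := by
      intro h0
      have h1 := h.sq_embed ι
      have h2 : ι (sq a w ^ 2 - 91 * sq a w + 2069) = 0 := by
        rw [map_add, map_sub, map_mul, map_pow, h1]
        have h3 : ι (91 : E) = 91 := map_ofNat ι 91
        have h4 : ι (2069 : E) = 2069 := map_ofNat ι 2069
        rw [h3, h4]
        exact_mod_cast h0
      have h3 : sq a w ^ 2 - 91 * sq a w + 2069 = 0 := by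
        apply ι.injective
        rw [h2, map_zero]
      apply hquad
      have hw := h.w_ne
      have h4 : sq a w * w = a ^ 2 := by
        rw [sq, mul_assoc, inv_mul_cancel₀ hw, mul_one]
      have h5 : (sq a w ^ 2 - 91 * sq a w + 2069) * w ^ 2 = a ^ 4 - 91 * a ^ 2 * w + 2069 * w ^ 2 := by
        rw [show a ^ 4 = (a ^ 2) ^ 2 by ring, ← h4]
        ring
      rw [← h5, h3, zero_mul]
    rw [fails_iff] at hι
    have hT : ((11 : ℕ) : ℝ) ^ (7 / 64 : ℝ) ≤ 1.2999 := rpow_seven 11 (by norm_num) (by norm_num)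
    have hB := h.sq_le (by norm_num) (by norm_num) hT ι
    set x := ‖ι a‖ ^ 2 with hx
    have h1 : 44 < x := by norm_num at hι; linarith
    have h2 : x ≤ 47.0972 := le_trans hB (by norm_num)
    have e : aeval x ((X - C 44) * (X - C 45) * (X - C 46) * (X - C 47) * (X ^ 2 - C 91 * X + C 2069) : ℤ[X]) =
        (x - 44) * (x - 45) * (x - 46) * (x - 47) * (x ^ 2 - 91 * x + 2069) := by
      simp only [map_mul, map_pow, map_sub, map_add, aeval_X, aeval_C]; norm_num
    rw [e]
    have n0 : x - 44 ≠ 0 := by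
      intro h0
      linarith
    have n1 : x - 45 ≠ 0 := by
      intro h0
      apply hne
      push_cast
      linarith
    have n2 : x - 46 ≠ 0 := by
      intro h0
      apply hne'
      push_cast
      linarith
    have n3 : x - 47 ≠ 0 := by
      intro h0
      apply hne''
      push_cast
      linarith
    refine ⟨mul_ne_zero (mul_ne_zero (mul_ne_zero (mul_ne_zero n0 n1) n2) n3) hq, ?_⟩
    set s := x ^ 2 - 91 * x + 2069 with hs
    have e3 : (x - 44) * (x - 45) * (x - 46) * (x - 47) * s = s ^ 3 - s := by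
      rw [hs]; ring
    have s0 : -1.25 ≤ s := by
      rw [hs]
      nlinarith [sq_nonneg (x - 45.5)]
    have s1 : s ≤ 1.3008 := by
      rw [hs]
      nlinarith
    rw [e3, abs_le]
    have h3 : 0 ≤ (s - 0.577) ^ 2 * (s + 1.154) + 0.1 * (s - 0.577) ^ 2 := by
      have : 0 ≤ (s - 0.577) ^ 2 * (s + 1.254) := mul_nonneg (sq_nonneg _) (by linarith)
      nlinarith
    constructor
    · nlinarith [sq_nonneg (s - 0.577), mul_nonneg (sub_nonneg.2 s0) (sq_nonneg (s - 1)), sq_nonneg s]
    · nlinarith [mul_nonneg (sub_nonneg.2 s1) (sq_nonneg (s + 0.65)), sq_nonneg (s + 0.65), sq_nonneg s]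

end

end Pool.Agent.V8H88.SN
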