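import Mathlib

/-!
# Integrality and the Ramanujan bound at primes of small norm
-/

set_option autoImplicit false

namespace Pool.Agent.V8H88.SN

open NumberField Polynomial

/-- The weight 2 Hecke eigenvalues at one prime of norm `q`: `a = θ(T_v)` and `w = θ(S_v)` in the coefficient field `E`.
`a` is integral, `w` is a root of unity, under every embedding of `E` in `ℂ` the complex conjugate of `a` is `a / w`
(`θ` is cuspidal), and the bound with the exponent `t` holds: `|a| ≤ q^(1/2) (q^t + q^(-t))`. -/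
structure Eigenvalue (E : Type) [Field E] [NumberField E] (q : ℕ) (t : ℝ) (a w : E) : Prop where
  integral : IsIntegral ℤ a
  root : ∃ n : ℕ, 0 < n ∧ w ^ n = 1
  adjoint : ∀ ι : E →+* ℂ, (starRingEnd ℂ) (ι a) * ι w = ι a
  bound : ∀ ι : E →+* ℂ, ‖ι a‖ ≤ (q : ℝ) ^ (1 / 2 : ℝ) * ((q : ℝ) ^ t + (q : ℝ) ^ (-t))

/-- the bound `|z| ≤ 2 q^(1/2)` fails -/
def Fails (q : ℕ) (z : ℂ) : Prop := 2 * (q : ℝ) ^ (1 / 2 : ℝ) < ‖z‖

section

variable {E : Type} [Field E] [NumberField E] {q : ℕ} {t : ℝ} {a w : E}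

/-- the number `|a|² = a² / w` as an element of `E` -/
noncomputable def sq (a w : E) : E := a ^ 2 * w⁻¹

theorem Eigenvalue.w_ne (h : Eigenvalue E q t a w) : w ≠ 0 := by
  obtain ⟨n, hn, hw⟩ := h.root
  rintro rfl
  rw [zero_pow hn.ne'] at hw
  exact zero_ne_one hw

theorem Eigenvalue.sq_integral (h : Eigenvalue E q t a w) : IsIntegral ℤ (sq a w) := by
  obtain ⟨n, hn, hw⟩ := h.root
  refine (h.integral.pow 2).mul ?_
  have : w⁻¹ ^ n = 1 := by rw [inv_pow, hw, inv_one]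
  exact IsIntegral.of_pow hn (by rw [this]; exact isIntegral_one)

theorem Eigenvalue.sq_embed (h : Eigenvalue E q t a w) (ι : E →+* ℂ) : ι (sq a w) = ((‖ι a‖ ^ 2 : ℝ) : ℂ) := by
  have hw : ι w ≠ 0 := by
    rw [Ne, map_eq_zero]; exact h.w_ne
  have h1 := h.adjoint ι
  have h2 : ι (sq a w) = ι a ^ 2 * (ι w)⁻¹ := by
    simp [sq]
  have h3 : (starRingEnd ℂ) (ι a) = ι a * (ι w)⁻¹ := by
    rw [← h1, mul_assoc, mul_inv_cancel₀ hw, mul_one, h1]
  rw [h2, pow_two, mul_assoc, ← h3, Complex.mul_conj, Complex.normSq_eq_norm_sq]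

/-- `B²` for the upper bound `T ≥ q^t` -/
theorem Eigenvalue.sq_le (h : Eigenvalue E q t a w) (hq : 1 ≤ q) (ht : 0 ≤ t) {T : ℝ} (hT : (q : ℝ) ^ t ≤ T)
    (ι : E →+* ℂ) : ‖ι a‖ ^ 2 ≤ q * (T + T⁻¹) ^ 2 := by
  have hq0 : (0 : ℝ) < q := by exact_mod_cast hq
  have hq1 : (1 : ℝ) ≤ q := by exact_mod_cast hq
  have h1 : (1 : ℝ) ≤ (q : ℝ) ^ t := Real.one_le_rpow hq1 ht
  have hT0 : 0 < T := by linarith
  have h2 : (q : ℝ) ^ t + (q : ℝ) ^ (-t) ≤ T + T⁻¹ := by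
    rw [Real.rpow_neg hq0.le]
    set s := (q : ℝ) ^ t with hs
    have hs0 : 0 < s := by linarith
    have : T + T⁻¹ - (s + s⁻¹) = (T - s) * (T * s - 1) / (T * s) := by
      field_simp
      ring
    have h3 : 0 ≤ (T - s) * (T * s - 1) / (T * s) := by
      apply div_nonneg _ (by positivity)
      apply mul_nonneg (by linarith)
      nlinarith
    linarith
  have h3 := h.bound ι
  have h4 : (0 : ℝ) ≤ (q : ℝ) ^ t + (q : ℝ) ^ (-t) := by positivity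
  have h5 : ‖ι a‖ ^ 2 ≤ ((q : ℝ) ^ (1 / 2 : ℝ) * ((q : ℝ) ^ t + (q : ℝ) ^ (-t))) ^ 2 :=
    pow_le_pow_left₀ (norm_nonneg _) h3 2
  have h6 : ((q : ℝ) ^ (1 / 2 : ℝ)) ^ 2 = q := by
    rw [← Real.rpow_natCast, ← Real.rpow_mul hq0.le]; norm_num
  calc ‖ι a‖ ^ 2 ≤ _ := h5
    _ = q * ((q : ℝ) ^ t + (q : ℝ) ^ (-t)) ^ 2 := by rw [mul_pow, h6]
    _ ≤ q * (T + T⁻¹) ^ 2 := by gcongr

theorem fails_iff {z : ℂ} : Fails q z ↔ 4 * (q : ℝ) < ‖z‖ ^ 2 := by
  unfold Fails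
  have h6 : ((q : ℝ) ^ (1 / 2 : ℝ)) ^ 2 = q := by
    rw [← Real.rpow_natCast, ← Real.rpow_mul (Nat.cast_nonneg q)]; norm_num
  have h0 : (0 : ℝ) ≤ 2 * (q : ℝ) ^ (1 / 2 : ℝ) := by positivity
  rw [← pow_lt_pow_iff_left₀ h0 (norm_nonneg z) two_ne_zero, mul_pow, h6]
  norm_num

/-- The auxiliary function method: an integer polynomial which is at most `M` on `[0, 4q]` and at most `m < 1` on the
interval of the failures. -/
theorem Eigenvalue.share (h : Eigenvalue E q t a w) (P : ℤ[X]) (M m : ℝ) (hm0 : 0 < m)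
    (hP1 : ∀ x : ℝ, 0 ≤ x → x ≤ 4 * q → |aeval x P| ≤ M)
    (hP2 : ∀ ι : E →+* ℂ, Fails q (ι a) → |aeval (‖ι a‖ ^ 2) P| ≤ m)
    (hP0 : aeval (sq a w) P ≠ 0) :
    1 ≤ m ^ (Nat.card {ι : E →+* ℂ // Fails q (ι a)}) *
      M ^ (Module.finrank ℚ E - Nat.card {ι : E →+* ℂ // Fails q (ι a)}) := by
  classical
  set x := aeval (sq a w) P with hx
  have hxint : IsIntegral ℤ x := by
    rw [hx]
    exact adjoin_le_integralClosure h.sq_integral (aeval_mem_adjoin_singleton ℤ _)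
  have hnorm : IsIntegral ℤ (Algebra.norm ℚ x) := Algebra.isIntegral_norm ℚ hxint
  obtain ⟨N, hN⟩ := IsIntegrallyClosed.isIntegral_iff.mp hnorm
  have hN0 : N ≠ 0 := by
    rintro rfl
    rw [map_zero] at hN
    exact hP0 (Algebra.norm_eq_zero_iff.mp hN.symm)
  have hprod : (algebraMap ℚ ℂ) (Algebra.norm ℚ x) = ∏ σ : E →ₐ[ℚ] ℂ, σ x :=
    Algebra.norm_eq_prod_embeddings ℚ ℂ x
  have h1 : (1 : ℝ) ≤ ∏ σ : E →ₐ[ℚ] ℂ, ‖σ x‖ := by
    rw [← norm_prod, ← hprod, ← hN]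
    have : (algebraMap ℚ ℂ) ((algebraMap ℤ ℚ) N) = (N : ℂ) := by simp
    rw [this, Complex.norm_intCast]
    exact_mod_cast Int.one_le_abs hN0
  have hval : ∀ σ : E →ₐ[ℚ] ℂ, ‖σ x‖ = |aeval (‖(σ : E →+* ℂ) a‖ ^ 2) P| := by
    intro σ
    have e1 : σ x = aeval (σ (sq a w)) P := by
      exact (Polynomial.aeval_algHom_apply (AlgHom.restrictScalars ℤ σ) (sq a w) P).symm
    have e3 : σ (sq a w) = ((‖(σ : E →+* ℂ) a‖ ^ 2 : ℝ) : ℂ) := h.sq_embed (σ : E →+* ℂ)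
    rw [e1, e3]
    have e4 : aeval (((‖(σ : E →+* ℂ) a‖ ^ 2 : ℝ) : ℂ)) P = ((aeval (‖(σ : E →+* ℂ) a‖ ^ 2 : ℝ) P : ℝ) : ℂ) := by
      exact Polynomial.aeval_algebraMap_apply ℂ (‖(σ : E →+* ℂ) a‖ ^ 2 : ℝ) P
    rw [e4, Complex.norm_real, Real.norm_eq_abs]
  set F : Finset (E →ₐ[ℚ] ℂ) := Finset.univ.filter fun σ => Fails q ((σ : E →+* ℂ) a) with hF
  have hcardF : F.card = Nat.card {ι : E →+* ℂ // Fails q (ι a)} := by
    rw [hF, ← Fintype.card_subtype, ← Nat.card_eq_fintype_card]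
    exact Nat.card_congr ((RingHom.equivRatAlgHom (R := E) (S := ℂ)).symm.subtypeEquiv
      (fun σ => by rfl))
  have hcard : Fintype.card (E →ₐ[ℚ] ℂ) = Module.finrank ℚ E := AlgHom.card ℚ E ℂ
  have h2 : ∏ σ : E →ₐ[ℚ] ℂ, ‖σ x‖ = (∏ σ ∈ F, ‖σ x‖) * ∏ σ ∈ Fᶜ, ‖σ x‖ :=
    (Finset.prod_mul_prod_compl F _).symm
  have h3 : ∏ σ ∈ F, ‖σ x‖ ≤ m ^ F.card := by
    rw [← Finset.prod_const]
    refine Finset.prod_le_prod (fun _ _ => norm_nonneg _) fun σ hσ => ?_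
    rw [hval]
    exact hP2 _ (Finset.mem_filter.mp hσ).2
  have h4 : ∏ σ ∈ Fᶜ, ‖σ x‖ ≤ M ^ Fᶜ.card := by
    rw [← Finset.prod_const]
    refine Finset.prod_le_prod (fun _ _ => norm_nonneg _) fun σ hσ => ?_
    rw [hval]
    have h5 : ¬ Fails q ((σ : E →+* ℂ) a) := fun hf =>
      Finset.mem_compl.mp hσ (Finset.mem_filter.mpr ⟨Finset.mem_univ _, hf⟩)
    rw [fails_iff, not_lt] at h5
    exact hP1 _ (by positivity) h5
  have h5 : Fᶜ.card = Module.finrank ℚ E - F.card := by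
    rw [Finset.card_compl, hcard]
  rw [← hcardF, ← h5]
  calc (1 : ℝ) ≤ _ := h1
    _ = _ := h2
    _ ≤ m ^ F.card * M ^ Fᶜ.card :=
        mul_le_mul h3 h4 (Finset.prod_nonneg fun _ _ => norm_nonneg _) (by positivity)

theorem card_fails_le : Nat.card {ι : E →+* ℂ // Fails q (ι a)} ≤ Module.finrank ℚ E := by
  classical
  have hcard : Fintype.card (E →ₐ[ℚ] ℂ) = Module.finrank ℚ E := AlgHom.card ℚ E ℂ
  rw [← hcard, ← Nat.card_eq_fintype_card]
  exact Nat.card_le_card_of_injective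
    (fun ι => (RingHom.equivRatAlgHom (R := E) (S := ℂ)) ι.1)
    (fun x y hxy => Subtype.ext ((RingHom.equivRatAlgHom (R := E) (S := ℂ)).injective hxy))

end

/-- the numerical step: `1 ≤ m^k M^(n-k)` and `m^c M^(d-c) < 1` give `d k ≤ c n`. -/
theorem share_numeric {m M : ℝ} (hm0 : 0 < m) (hM : 1 ≤ M) {c d k n : ℕ} (hcd : c ≤ d) (hkn : k ≤ n)
    (hd : 0 < d) (hnum : m ^ c * M ^ (d - c) ≤ 1) (h : 1 ≤ m ^ k * M ^ (n - k)) (hlt : m < 1) :
    d * k ≤ c * n := by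
  by_contra hcon
  rw [not_le] at hcon
  -- take logarithms
  have hlm : Real.log m < 0 := Real.log_neg hm0 hlt
  have hlM : 0 ≤ Real.log M := Real.log_nonneg hM
  have hM0 : 0 < M := by linarith
  have h1 : (0 : ℝ) ≤ k * Real.log m + (n - k : ℝ) * Real.log M := by
    have := Real.log_le_log one_pos h
    rw [Real.log_one, Real.log_mul (by positivity) (by positivity), Real.log_pow, Real.log_pow,
      Nat.cast_sub hkn] at this
    exact this
  have h2 : c * Real.log m + (d - c : ℝ) * Real.log M ≤ 0 := by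
    have := Real.log_le_log (by positivity) hnum
    rw [Real.log_one, Real.log_mul (by positivity) (by positivity), Real.log_pow, Real.log_pow,
      Nat.cast_sub hcd] at this
    exact this
  have h3 : (c : ℝ) * n < d * k := by exact_mod_cast hcon
  have hd0 : (0 : ℝ) < d := by exact_mod_cast hd
  have hn0 : (0 : ℝ) ≤ n := Nat.cast_nonneg n
  -- d·(first) - n·(second) : (d k - c n) (log m - log M) ≥ 0, contradiction
  have h4 : 0 ≤ (d * k - c * n : ℝ) * (Real.log m - Real.log M) := by nlinarith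
  have h5 : (d * k - c * n : ℝ) * (Real.log m - Real.log M) < 0 :=
    mul_neg_of_pos_of_neg (by linarith) (by linarith)
  linarith

end Pool.Agent.V8H88.SN
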