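import Pool.Agent.V8H88.SN.Basic

/-!
# Primes of norm 2, 3, 4, 5; small coefficient fields; general exponents
-/

set_option autoImplicit false
set_option linter.unusedSimpArgs false

namespace Pool.Agent.V8H88.SN

open NumberField Polynomial

section

variable {E : Type} [Field E] [NumberField E] {q : ℕ} {t : ℝ} {a w : E}

theorem rpow_seven (q : ℕ) {T : ℝ} (hT0 : 0 ≤ T) (h : (q : ℝ) ^ 7 ≤ T ^ 64) : (q : ℝ) ^ (7 / 64 : ℝ) ≤ T := by
  have h1 : ((q : ℝ) ^ (7 / 64 : ℝ)) ^ 64 = (q : ℝ) ^ 7 := by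
    rw [← Real.rpow_natCast, ← Real.rpow_mul (Nat.cast_nonneg q)]
    norm_num
  rw [← h1] at h
  exact le_of_pow_le_pow_left₀ (by norm_num) hT0 h

theorem Eigenvalue.share_le (h : Eigenvalue E q t a w) (P : ℤ[X]) (M m : ℝ) (hM : 1 ≤ M) (hm0 : 0 < m)
    (hlt : m < 1) {c d : ℕ} (hcd : c ≤ d) (hd : 0 < d) (hnum : m ^ c * M ^ (d - c) ≤ 1)
    (hP1 : ∀ x : ℝ, 0 ≤ x → x ≤ 4 * q → |aeval x P| ≤ M)
    (hP2 : ∀ ι : E →+* ℂ, Fails q (ι a) → aeval (‖ι a‖ ^ 2) P ≠ 0 ∧ |aeval (‖ι a‖ ^ 2) P| ≤ m) :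
    d * Nat.card {ι : E →+* ℂ // Fails q (ι a)} ≤ c * Module.finrank ℚ E := by
  classical
  by_cases h0 : aeval (sq a w) P = 0
  · have : IsEmpty {ι : E →+* ℂ // Fails q (ι a)} := by
      refine ⟨fun ι => (hP2 ι.1 ι.2).1 ?_⟩
      have e1 : ι.1 (aeval (sq a w) P) = aeval (ι.1 (sq a w)) P := by
        have := (Polynomial.aeval_algHom_apply (RingHom.toIntAlgHom ι.1) (sq a w) P).symm
        simpa using this
      rw [h0, map_zero, h.sq_embed] at e1
      have e4 : aeval (((‖ι.1 a‖ ^ 2 : ℝ) : ℂ)) P = ((aeval (‖ι.1 a‖ ^ 2 : ℝ) P : ℝ) : ℂ) :=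
        Polynomial.aeval_algebraMap_apply ℂ (‖ι.1 a‖ ^ 2 : ℝ) P
      rw [e4] at e1
      exact_mod_cast e1.symm
    rw [Nat.card_of_isEmpty, mul_zero]
    exact Nat.zero_le _
  · exact share_numeric hm0 hM hcd card_fails_le hd hnum
      (h.share P M m hm0 hP1 (fun ι hι => (hP2 ι hι).2) h0) hlt

/-- norm 2: at most `2/5` of the conjugates -/
theorem Eigenvalue.two (h : Eigenvalue E 2 (7 / 64) a w) :
    5 * Nat.card {ι : E →+* ℂ // Fails 2 (ι a)} ≤ 2 * Module.finrank ℚ E := by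
  refine h.share_le (X * (X - C 8) ^ 31) (0.25 * 7.75 ^ 31) (8.0462 * 0.0462 ^ 31) (by norm_num) (by norm_num)
    (by norm_num) (by norm_num) (by norm_num) (by norm_num) ?_ ?_
  · intro x hx0 hx1
    have hx1' : x ≤ 8 := by norm_num at hx1; linarith
    have e : aeval x (X * (X - C 8) ^ 31 : ℤ[X]) = x * (x - 8) ^ 31 := by
      simp only [map_mul, map_pow, map_sub, map_add, aeval_X, aeval_C]; norm_num
    have e2 : |x * (x - 8) ^ 31| = x * (8 - x) ^ 31 := by
      have : x - 8 = -(8 - x) := by ring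
      rw [this, Odd.neg_pow (by decide), mul_neg, abs_neg, abs_of_nonneg]
      exact mul_nonneg hx0 (pow_nonneg (by linarith) _)
    rw [e, e2]
    rcases eq_or_lt_of_le hx1' with h8 | h8
    · rw [h8]; norm_num
    · -- Bernoulli
      have hy0 : 0 < 8 - x := by linarith
      set y := 8 - x with hy
      have hb : 1 + (31 : ℕ) * (7.75 / y - 1) ≤ (1 + (7.75 / y - 1)) ^ 31 :=
        one_add_mul_le_pow (by
          have : 0 < 7.75 / y := by positivity
          linarith) 31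
      have hb2 : (1 + (7.75 / y - 1) : ℝ) = 7.75 / y := by ring
      rw [hb2, div_pow, le_div_iff₀ (by positivity)] at hb
      have hx : x = 8 - y := by rw [hy]; ring
      have hy31 : 0 < y ^ 31 := by positivity
      have h3 : 4 * x ≤ 1 + (31 : ℕ) * (7.75 / y - 1) := by
        rw [hx]
        have : 1 + ((31 : ℕ) : ℝ) * (7.75 / y - 1) - 4 * (8 - y) = (4 * y ^ 2 - 62 * y + 31 * 7.75) / y := by
          push_cast
          field_simp
          ring
        have h4 : 0 ≤ (4 * y ^ 2 - 62 * y + 31 * 7.75) / y := by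
          apply div_nonneg _ hy0.le
          nlinarith [sq_nonneg (y - 7.75)]
        linarith
      have h5 : 4 * x * y ^ 31 ≤ 7.75 ^ 31 := le_trans (mul_le_mul_of_nonneg_right h3 hy31.le) hb
      linarith
  · intro ι hι
    rw [fails_iff] at hι
    have hT : ((2 : ℕ) : ℝ) ^ (7 / 64 : ℝ) ≤ 1.0788 := rpow_seven 2 (by norm_num) (by norm_num)
    have hB := h.sq_le (by norm_num) (by norm_num) hT ι
    set x := ‖ι a‖ ^ 2 with hx
    have h1 : 8 < x := by norm_num at hι; linarith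
    have h2 : x ≤ 8.0462 := le_trans hB (by norm_num)
    have e : aeval x (X * (X - C 8) ^ 31 : ℤ[X]) = x * (x - 8) ^ 31 := by
      simp only [map_mul, map_pow, map_sub, map_add, aeval_X, aeval_C]; norm_num
    rw [e]
    have h3 : 0 < x - 8 := by linarith
    have h4 : 0 < x * (x - 8) ^ 31 := mul_pos (by linarith) (pow_pos h3 _)
    refine ⟨h4.ne', ?_⟩
    rw [abs_of_pos h4]
    exact mul_le_mul h2 (pow_le_pow_left₀ h3.le (by linarith) _) (by positivity) (by norm_num)

/-- norm 3: at most `29/50` of the conjugates -/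
theorem Eigenvalue.three (h : Eigenvalue E 3 (7 / 64) a w) :
    50 * Nat.card {ι : E →+* ℂ // Fails 3 (ι a)} ≤ 29 * Module.finrank ℚ E := by
  refine h.share_le ((X - C 12) ^ 10 * (X ^ 2 - C 13 * X + C 10)) (12 ^ 10 * 10) (2.77 / 10 ^ 9) (by norm_num)
    (by norm_num) (by norm_num) (by norm_num) (by norm_num) (by norm_num) ?_ ?_
  · intro x hx0 hx1
    have hx1' : x ≤ 12 := by norm_num at hx1; linarith
    have e : aeval x ((X - C 12) ^ 10 * (X ^ 2 - C 13 * X + C 10) : ℤ[X]) =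
        (x - 12) ^ 10 * (x ^ 2 - 13 * x + 10) := by
      simp only [map_mul, map_pow, map_sub, map_add, aeval_X, aeval_C]; norm_num
    have h10 : 0 ≤ (x - 12) ^ 10 := by positivity
    rw [e, abs_mul, abs_of_nonneg h10]
    set z := x / 12 with hz
    have hz0 : 0 ≤ z := by positivity
    have hz1 : z ≤ 1 := by rw [hz, div_le_one (by norm_num)]; exact hx1'
    have hxz : x = 12 * z := by rw [hz]; ring
    have e2 : (x - 12) ^ 10 = 12 ^ 10 * (1 - z) ^ 10 := by rw [hxz]; ring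
    have h3 : ((1 - z) * (1 + z)) ^ 10 ≤ 1 := pow_le_one₀ (by nlinarith) (by nlinarith)
    have h4 : 1 + 10 * z + 45 * z ^ 2 ≤ (1 + z) ^ 10 := by
      have : (1 + z) ^ 10 = 1 + 10 * z + 45 * z ^ 2 + (120 * z ^ 3 + 210 * z ^ 4 + 252 * z ^ 5 + 210 * z ^ 6 +
        120 * z ^ 7 + 45 * z ^ 8 + 10 * z ^ 9 + z ^ 10) := by ring
      rw [this]
      have : 0 ≤ 120 * z ^ 3 + 210 * z ^ 4 + 252 * z ^ 5 + 210 * z ^ 6 + 120 * z ^ 7 + 45 * z ^ 8 + 10 * z ^ 9 +
        z ^ 10 := by positivity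
      linarith
    have h5 : |x ^ 2 - 13 * x + 10| ≤ 10 * (1 + 10 * z + 45 * z ^ 2) := by
      rw [hxz, abs_le]
      constructor <;> nlinarith [sq_nonneg z, sq_nonneg (z - 1 / 20)]
    have h6 : |x ^ 2 - 13 * x + 10| ≤ 10 * (1 + z) ^ 10 := by linarith
    have h7 : 0 ≤ (1 - z) ^ 10 := by positivity
    calc (x - 12) ^ 10 * |x ^ 2 - 13 * x + 10| ≤ (12 ^ 10 * (1 - z) ^ 10) * (10 * (1 + z) ^ 10) := by
          rw [e2]
          exact mul_le_mul_of_nonneg_left h6 (by positivity)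
      _ = 12 ^ 10 * 10 * ((1 - z) * (1 + z)) ^ 10 := by rw [mul_pow]; ring
      _ ≤ 12 ^ 10 * 10 * 1 := by gcongr
      _ = 12 ^ 10 * 10 := mul_one _
  · intro ι hι
    rw [fails_iff] at hι
    have hT : ((3 : ℕ) : ℝ) ^ (7 / 64 : ℝ) ≤ 1.1277 := rpow_seven 3 (by norm_num) (by norm_num)
    have hB := h.sq_le (by norm_num) (by norm_num) hT ι
    set x := ‖ι a‖ ^ 2 with hx
    have h1 : 12 < x := by norm_num at hι; linarith
    have h2 : x ≤ 12.1745 := le_trans hB (by norm_num)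
    have e : aeval x ((X - C 12) ^ 10 * (X ^ 2 - C 13 * X + C 10) : ℤ[X]) =
        (x - 12) ^ 10 * (x ^ 2 - 13 * x + 10) := by
      simp only [map_mul, map_pow, map_sub, map_add, aeval_X, aeval_C]; norm_num
    rw [e]
    set u := x - 12 with hu
    have hu0 : 0 < u := by linarith
    have hu1 : u ≤ 0.1745 := by linarith
    have e3 : x ^ 2 - 13 * x + 10 = -(2 - 11 * u - u ^ 2) := by
      have : x = u + 12 := by rw [hu]; ring
      rw [this]; ring
    have h4 : 0 < 2 - 11 * u - u ^ 2 := by nlinarith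
    have h5 : 0 < u ^ 10 := by positivity
    rw [e3, mul_neg]
    refine ⟨(neg_neg_of_pos (mul_pos h5 h4)).ne, ?_⟩
    rw [abs_neg, abs_of_pos (mul_pos h5 h4)]
    -- `u^10 (2 - 11 u) ≤ u0^10 * 2/11` for `u0 = 20/121`
    set r := u / (20 / 121) with hr
    have hr0 : 0 < r := by positivity
    have hur : u = 20 / 121 * r := by rw [hr]; field_simp
    have hb : 1 + (10 : ℕ) * (r⁻¹ - 1) ≤ (1 + (r⁻¹ - 1)) ^ 10 :=
      one_add_mul_le_pow (by have : 0 < r⁻¹ := by positivity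
                             linarith) 10
    have hb2 : (1 + (r⁻¹ - 1) : ℝ) = r⁻¹ := by ring
    rw [hb2] at hb
    have h6 : 11 - 10 * r ≤ (r⁻¹) ^ 10 := by
      have : 1 + ((10 : ℕ) : ℝ) * (r⁻¹ - 1) - (11 - 10 * r) = 10 * (r - 1) ^ 2 / r := by
        push_cast
        field_simp
        ring
      have h7 : 0 ≤ 10 * (r - 1) ^ 2 / r := by positivity
      linarith
    have h7 : r ^ 10 * (11 - 10 * r) ≤ 1 := by
      have h8 := mul_le_mul_of_nonneg_left h6 (by positivity : 0 ≤ r ^ 10)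
      rwa [← mul_pow, mul_inv_cancel₀ hr0.ne', one_pow] at h8
    calc u ^ 10 * (2 - 11 * u - u ^ 2) ≤ u ^ 10 * (2 - 11 * u) := by
          apply mul_le_mul_of_nonneg_left _ h5.le
          nlinarith
      _ = (20 / 121) ^ 10 * (2 / 11) * (r ^ 10 * (11 - 10 * r)) := by rw [hur]; ring
      _ ≤ (20 / 121) ^ 10 * (2 / 11) * 1 := by gcongr
      _ ≤ 2.77 / 10 ^ 9 := by norm_num

/-- norm 4: at most `37/50` of the conjugates -/
theorem Eigenvalue.four (h : Eigenvalue E 4 (7 / 64) a w) :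
    50 * Nat.card {ι : E →+* ℂ // Fails 4 (ι a)} ≤ 37 * Module.finrank ℚ E := by
  refine h.share_le (X - C 16) 16 0.3711 (by norm_num) (by norm_num) (by norm_num) (by norm_num) (by norm_num)
    (by norm_num) ?_ ?_
  · intro x hx0 hx1
    have hx1' : x ≤ 16 := by norm_num at hx1; linarith
    have e : aeval x (X - C 16 : ℤ[X]) = x - 16 := by
      simp only [map_mul, map_pow, map_sub, map_add, aeval_X, aeval_C]; norm_num
    rw [e, abs_le]
    constructor <;> linarith
  · intro ι hι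
    rw [fails_iff] at hι
    have hT : ((4 : ℕ) : ℝ) ^ (7 / 64 : ℝ) ≤ 1.1638 := rpow_seven 4 (by norm_num) (by norm_num)
    have hB := h.sq_le (by norm_num) (by norm_num) hT ι
    set x := ‖ι a‖ ^ 2 with hx
    have h1 : 16 < x := by norm_num at hι; linarith
    have h2 : x ≤ 16.3711 := le_trans hB (by norm_num)
    have e : aeval x (X - C 16 : ℤ[X]) = x - 16 := by
      simp only [map_mul, map_pow, map_sub, map_add, aeval_X, aeval_C]; norm_num
    rw [e]
    have h3 : 0 < x - 16 := by linarith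
    refine ⟨h3.ne', ?_⟩
    rw [abs_of_pos h3]
    linarith

/-- norm 5: at most `41/50` of the conjugates -/
theorem Eigenvalue.five (h : Eigenvalue E 5 (7 / 64) a w) :
    50 * Nat.card {ι : E →+* ℂ // Fails 5 (ι a)} ≤ 41 * Module.finrank ℚ E := by
  refine h.share_le ((X - C 20) * (X - C 21)) 420 0.25 (by norm_num) (by norm_num) (by norm_num) (by norm_num)
    (by norm_num) (by norm_num) ?_ ?_
  · intro x hx0 hx1
    have hx1' : x ≤ 20 := by norm_num at hx1; linarith
    have e : aeval x ((X - C 20) * (X - C 21) : ℤ[X]) = (x - 20) * (x - 21) := by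
      simp only [map_mul, map_pow, map_sub, map_add, aeval_X, aeval_C]; norm_num
    rw [e, abs_le]
    constructor <;> nlinarith
  · intro ι hι
    rw [fails_iff] at hι
    have hT : ((5 : ℕ) : ℝ) ^ (7 / 64 : ℝ) ≤ 1.1925 := rpow_seven 5 (by norm_num) (by norm_num)
    have hB := h.sq_le (by norm_num) (by norm_num) hT ι
    set x := ‖ι a‖ ^ 2 with hx
    have h1 : 20 < x := by norm_num at hι; linarith
    have h2 : x ≤ 20.63 := le_trans hB (by norm_num)
    have e : aeval x ((X - C 20) * (X - C 21) : ℤ[X]) = (x - 20) * (x - 21) := by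
      simp only [map_mul, map_pow, map_sub, map_add, aeval_X, aeval_C]; norm_num
    rw [e]
    have h3 : (x - 20) * (x - 21) < 0 := mul_neg_of_pos_of_neg (by linarith) (by linarith)
    refine ⟨h3.ne, ?_⟩
    rw [abs_of_neg h3]
    nlinarith [sq_nonneg (x - 20.5)]

end

end Pool.Agent.V8H88.SN
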