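import Pool.Agent.V8H88.SN.Small

/-!
# Rational and quadratic values; general exponents
-/

set_option autoImplicit false
set_option linter.unusedSimpArgs false

namespace Pool.Agent.V8H88.SN

open NumberField Polynomial

section

variable {E : Type} [Field E] [NumberField E] {q : ℕ} {t : ℝ} {a w : E}

/-- Any exponent `t > 0`: if `δ = q (q^t - q^(-t))²` then the share of the failures is at most
`log(4q) / log(4q/δ)`. -/
theorem Eigenvalue.general (h : Eigenvalue E q t a w) (hq : 2 ≤ q) (ht : 0 < t) :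
    (Nat.card {ι : E →+* ℂ // Fails q (ι a)} : ℝ) *
      Real.log (4 * q / (q * ((q : ℝ) ^ t - (q : ℝ) ^ (-t)) ^ 2)) ≤
      Module.finrank ℚ E * Real.log (4 * q) := by
  have hq0 : (0 : ℝ) < q := by exact_mod_cast (by omega : 0 < q)
  have hq1 : (1 : ℝ) < q := by exact_mod_cast (by omega : 1 < q)
  have h1 : (1 : ℝ) < (q : ℝ) ^ t := Real.one_lt_rpow hq1 ht
  have h2 : (q : ℝ) ^ (-t) < 1 := Real.rpow_lt_one_of_one_lt_of_neg hq1 (by linarith)
  have h3 : 0 < (q : ℝ) ^ t - (q : ℝ) ^ (-t) := by linarith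
  have h12 : (q : ℝ) ^ t * (q : ℝ) ^ (-t) = 1 := by
    rw [← Real.rpow_add hq0, add_neg_cancel, Real.rpow_zero]
  set δ := (q : ℝ) * ((q : ℝ) ^ t - (q : ℝ) ^ (-t)) ^ 2 with hδ
  have hδ0 : 0 < δ := by positivity
  have h4q : 0 < 4 * (q : ℝ) := by positivity
  have hlogq : 0 ≤ Real.log (4 * q) := Real.log_nonneg (by linarith)
  have hle := card_fails_le (E := E) (q := q) (a := a)
  have hfail : ∀ ι : E →+* ℂ, Fails q (ι a) → 0 < ‖ι a‖ ^ 2 - 4 * q ∧ ‖ι a‖ ^ 2 - 4 * q ≤ δ := by
    intro ι hι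
    rw [fails_iff] at hι
    have hB := h.sq_le (by omega) ht.le le_rfl ι
    refine ⟨by linarith, ?_⟩
    have : (q : ℝ) * ((q : ℝ) ^ t + ((q : ℝ) ^ t)⁻¹) ^ 2 = 4 * q + δ := by
      rw [hδ, ← Real.rpow_neg hq0.le]
      linear_combination (4 * q : ℝ) * h12
    linarith
  have e : ∀ x : ℝ, aeval x (X - C (4 * (q : ℤ)) : ℤ[X]) = x - 4 * q := by
    intro x
    rw [map_sub, aeval_X, aeval_C]
    push_cast
    norm_num
  by_cases h0 : aeval (sq a w) (X - C (4 * (q : ℤ)) : ℤ[X]) = 0
  · have : IsEmpty {ι : E →+* ℂ // Fails q (ι a)} := by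
      refine ⟨fun ι => ?_⟩
      have e1 : ι.1 (aeval (sq a w) (X - C (4 * (q : ℤ)) : ℤ[X])) = aeval (ι.1 (sq a w)) (X - C (4 * (q : ℤ)) : ℤ[X]) := by
        have := (Polynomial.aeval_algHom_apply (RingHom.toIntAlgHom ι.1) (sq a w) (X - C (4 * (q : ℤ)))).symm
        simpa using this
      rw [h0, map_zero, h.sq_embed] at e1
      have e4 : aeval (((‖ι.1 a‖ ^ 2 : ℝ) : ℂ)) (X - C (4 * (q : ℤ)) : ℤ[X]) =
          ((aeval (‖ι.1 a‖ ^ 2 : ℝ) (X - C (4 * (q : ℤ)) : ℤ[X]) : ℝ) : ℂ) :=
        Polynomial.aeval_algebraMap_apply ℂ (‖ι.1 a‖ ^ 2 : ℝ) _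
      rw [e4, e] at e1
      have e5 : ‖ι.1 a‖ ^ 2 - 4 * (q : ℝ) = 0 := by exact_mod_cast e1.symm
      linarith [(hfail ι.1 ι.2).1]
    rw [Nat.card_of_isEmpty]
    simp only [Nat.cast_zero, zero_mul]
    positivity
  · have key := h.share (X - C (4 * (q : ℤ))) (4 * q) δ hδ0
      (fun x hx0 hx1 => by rw [e, abs_le]; constructor <;> linarith)
      (fun ι hι => by
        rw [e, abs_of_pos (hfail ι hι).1]
        exact (hfail ι hι).2) h0
    set k := Nat.card {ι : E →+* ℂ // Fails q (ι a)} with hk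
    have h5 := Real.log_le_log one_pos key
    rw [Real.log_one, Real.log_mul (by positivity) (by positivity), Real.log_pow, Real.log_pow,
      Nat.cast_sub hle] at h5
    rw [Real.log_div h4q.ne' hδ0.ne']
    linarith

/-- rational integral values at small norms -/
theorem Eigenvalue.rational (h : Eigenvalue E q (7 / 64) a w) (n : ℤ) (hn : a = n)
    (hq : q ∈ ({2, 3, 4, 5, 7, 8, 9, 11, 13, 16, 17, 25, 31} : Finset ℕ)) (ι : E →+* ℂ) : ¬ Fails q (ι a) := by
  rw [fails_iff, not_lt]
  have hval : ‖ι a‖ ^ 2 = ((n.natAbs : ℕ) : ℝ) ^ 2 := by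
    rw [hn, map_intCast, Complex.norm_intCast, Nat.cast_natAbs, Int.cast_abs]
  have key : ∀ (T : ℝ) (s : ℕ), 0 ≤ T → (q : ℝ) ^ 7 ≤ T ^ 64 → 1 ≤ q → q * (T + T⁻¹) ^ 2 < ((s : ℝ) + 1) ^ 2 →
      (s : ℝ) ^ 2 ≤ 4 * q → ‖ι a‖ ^ 2 ≤ 4 * q := by
    intro T s hT0 hT hq1 h1 h2
    have hB := h.sq_le hq1 (by norm_num) (rpow_seven q hT0 hT) ι
    rw [hval] at hB ⊢
    have h3 : ((n.natAbs : ℕ) : ℝ) ^ 2 < ((s : ℝ) + 1) ^ 2 := lt_of_le_of_lt hB h1
    have h4 : ((n.natAbs : ℕ) : ℝ) < (s : ℝ) + 1 := lt_of_pow_lt_pow_left₀ 2 (by positivity) h3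
    have h5 : n.natAbs ≤ s := by
      have : n.natAbs < s + 1 := by exact_mod_cast h4
      omega
    calc ((n.natAbs : ℕ) : ℝ) ^ 2 ≤ (s : ℝ) ^ 2 := by gcongr
      _ ≤ _ := h2
  fin_cases hq
  · exact key 1.0788 2 (by norm_num) (by norm_num) (by norm_num) (by norm_num) (by norm_num)
  · exact key 1.1277 3 (by norm_num) (by norm_num) (by norm_num) (by norm_num) (by norm_num)
  · exact key 1.1638 4 (by norm_num) (by norm_num) (by norm_num) (by norm_num) (by norm_num)
  · exact key 1.1925 4 (by norm_num) (by norm_num) (by norm_num) (by norm_num) (by norm_num)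
  · exact key 1.2373 5 (by norm_num) (by norm_num) (by norm_num) (by norm_num) (by norm_num)
  · exact key 1.2554 5 (by norm_num) (by norm_num) (by norm_num) (by norm_num) (by norm_num)
  · exact key 1.2718 6 (by norm_num) (by norm_num) (by norm_num) (by norm_num) (by norm_num)
  · exact key 1.3 6 (by norm_num) (by norm_num) (by norm_num) (by norm_num) (by norm_num)
  · exact key 1.3239 7 (by norm_num) (by norm_num) (by norm_num) (by norm_num) (by norm_num)
  · exact key 1.3544 8 (by norm_num) (by norm_num) (by norm_num) (by norm_num) (by norm_num)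
  · exact key 1.3634 8 (by norm_num) (by norm_num) (by norm_num) (by norm_num) (by norm_num)
  · exact key 1.4221 10 (by norm_num) (by norm_num) (by norm_num) (by norm_num) (by norm_num)
  · exact key 1.456 11 (by norm_num) (by norm_num) (by norm_num) (by norm_num) (by norm_num)

end

theorem quad_two (α β : ℝ) (t n : ℤ) (hα : 0 < α) (h1 : 8 < α ^ 2) (h2 : α ^ 2 ≤ 8.0462) (hβ : β ^ 2 ≤ 8.0462)
    (hs : α + β = t) (hp : α * β = n) : False := by
  have a1 : 2.828 < α := by nlinarith
  have a2 : α ≤ 2.8367 := by nlinarith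
  have b1 : β ≤ 2.8367 := by nlinarith
  have b2 : -2.8367 ≤ β := by nlinarith
  have t0 : (-1 : ℝ) < t := by linarith
  have t1 : (t : ℝ) < 6 := by linarith
  have t0' : -1 < t := by exact_mod_cast t0
  have t1' : t < 6 := by exact_mod_cast t1
  have hn : (n : ℝ) = t * α - α ^ 2 := by rw [← hp, ← hs]; ring
  have t2 : (0 : ℝ) ≤ t := by exact_mod_cast (by omega : 0 ≤ t)
  have t3 : (t : ℝ) ≤ 5 := by exact_mod_cast (by omega : t ≤ 5)
  have n1 : (3 * t - 9 : ℝ) < n := by rw [hn]; nlinarith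
  have n2 : (n : ℝ) < 3 * t - 8 := by rw [hn]; nlinarith
  have n1' : 3 * t - 9 < n := by exact_mod_cast n1
  have n2' : n < 3 * t - 8 := by exact_mod_cast n2
  omega

theorem quad_three (α β : ℝ) (t n : ℤ) (hα : 0 < α) (h1 : 12 < α ^ 2) (h2 : α ^ 2 ≤ 12.1745)
    (hβ : β ^ 2 ≤ 12.1745) (hs : α + β = t) (hp : α * β = n) : False := by
  have a1 : 3.464 < α := by nlinarith
  have a2 : α ≤ 3.4893 := by nlinarith
  have b1 : β ≤ 3.4893 := by nlinarith
  have b2 : -3.4893 ≤ β := by nlinarith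
  have t0 : (-1 : ℝ) < t := by linarith
  have t1 : (t : ℝ) < 7 := by linarith
  have t0' : -1 < t := by exact_mod_cast t0
  have t1' : t < 7 := by exact_mod_cast t1
  have hn : (n : ℝ) = t * α - α ^ 2 := by rw [← hp, ← hs]; ring
  have hc : ∀ k : ℤ, (k : ℝ) < n → (n : ℝ) < k + 1 → False := by
    intro k k1 k2
    have k1' : k < n := by exact_mod_cast k1
    have k2' : n < k + 1 := by exact_mod_cast k2
    omega
  interval_cases t
  · exact hc (-13) (by push_cast at hn ⊢; linarith) (by push_cast at hn ⊢; linarith)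
  · exact hc (-9) (by push_cast at hn ⊢; linarith) (by push_cast at hn ⊢; linarith)
  · exact hc (-6) (by push_cast at hn ⊢; linarith) (by push_cast at hn ⊢; linarith)
  · exact hc (-2) (by push_cast at hn ⊢; linarith) (by push_cast at hn ⊢; linarith)
  · exact hc 1 (by push_cast at hn ⊢; linarith) (by push_cast at hn ⊢; linarith)
  · exact hc 5 (by push_cast at hn ⊢; linarith) (by push_cast at hn ⊢; linarith)
  · exact hc 8 (by push_cast at hn ⊢; linarith) (by push_cast at hn ⊢; linarith)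

theorem quad_four (α β : ℝ) (t n : ℤ) (hα : 0 < α) (h1 : 16 < α ^ 2) (h2 : α ^ 2 ≤ 16.3711)
    (hβ : β ^ 2 ≤ 16.3711) (hs : α + β = t) (hp : α * β = n) : False := by
  have a1 : 4 < α := by nlinarith
  have a2 : α ≤ 4.0462 := by nlinarith
  have b1 : β ≤ 4.0462 := by nlinarith
  have b2 : -4.0462 ≤ β := by nlinarith
  have t0 : (-1 : ℝ) < t := by linarith
  have t1 : (t : ℝ) < 9 := by linarith
  have t0' : -1 < t := by exact_mod_cast t0
  have t1' : t < 9 := by exact_mod_cast t1
  have hn : (n : ℝ) = t * α - α ^ 2 := by rw [← hp, ← hs]; ring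
  have t2 : (0 : ℝ) ≤ t := by exact_mod_cast (by omega : 0 ≤ t)
  have t3 : (t : ℝ) ≤ 8 := by exact_mod_cast (by omega : t ≤ 8)
  have n1 : (4 * t - 17 : ℝ) < n := by rw [hn]; nlinarith
  have n2 : (n : ℝ) < 4 * t - 16 := by rw [hn]; nlinarith
  have n1' : 4 * t - 17 < n := by exact_mod_cast n1
  have n2' : n < 4 * t - 16 := by exact_mod_cast n2
  omega

section

variable {E : Type} [Field E] [NumberField E] {q : ℕ} {a : E}

/-- values of degree at most 2, trivial `S`-eigenvalue, norms 2, 3, 4 -/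
theorem Eigenvalue.quadratic (h : Eigenvalue E q (7 / 64) a 1) (hdeg : (minpoly ℚ a).natDegree ≤ 2)
    (hq : q ∈ ({2, 3, 4} : Finset ℕ)) (ι : E →+* ℂ) : ¬ Fails q (ι a) := by
  have hmin : minpoly ℚ a = (minpoly ℤ a).map (algebraMap ℤ ℚ) :=
    minpoly.isIntegrallyClosed_eq_field_fractions' ℚ h.integral
  set p := minpoly ℤ a with hp
  have hmonic : p.Monic := minpoly.monic h.integral
  have hnat : (minpoly ℚ a).natDegree = p.natDegree := by
    rw [hmin]; exact hmonic.natDegree_map _
  have hpos : 0 < p.natDegree := minpoly.natDegree_pos h.integral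
  have hroot : aeval a p = 0 := minpoly.aeval ℤ a
  rw [hnat] at hdeg
  have hreal : ∀ φ : E →+* ℂ, φ a = ((φ a).re : ℂ) := by
    intro φ
    have := h.adjoint φ
    rw [map_one, mul_one] at this
    exact (Complex.conj_eq_iff_re.mp this).symm
  have hlead : p.coeff p.natDegree = 1 := hmonic
  obtain hd | hd : p.natDegree = 1 ∨ p.natDegree = 2 := by omega
  · -- `a` is a rational integer
    rw [aeval_eq_sum_range, hd] at hroot
    rw [hd] at hlead
    simp only [Finset.sum_range_succ, Finset.sum_range_zero, hlead, zero_add, pow_zero, pow_one, one_smul] at hroot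
    have ha : a = ((-(p.coeff 0) : ℤ) : E) := by
      have : a = -(p.coeff 0 • (1 : E)) := by linear_combination hroot
      rw [this]; simp
    exact h.rational _ ha (by fin_cases hq <;> decide) ι
  · rw [aeval_eq_sum_range, hd] at hroot
    rw [hd] at hlead
    simp only [Finset.sum_range_succ, Finset.sum_range_zero, hlead, zero_add, pow_zero, pow_one, one_smul,
      zsmul_eq_mul, mul_one] at hroot
    set c := p.coeff 0 with hc
    set b := p.coeff 1 with hb
    -- the other root
    have hα : (ι a) ^ 2 + b * ι a + c = 0 := by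
      have := congrArg ι hroot
      simp only [map_add, map_mul, map_pow, map_intCast, map_zero] at this
      linear_combination this
    obtain ⟨φ, hφ⟩ : ∃ φ : E →+* ℂ, φ a = -b - ι a := by
      have hmem : (-b - ι a : ℂ) ∈ (minpoly ℚ a).rootSet ℂ := by
        rw [mem_rootSet]
        refine ⟨minpoly.ne_zero (Algebra.IsIntegral.isIntegral a), ?_⟩
        rw [hmin, aeval_map_algebraMap, aeval_eq_sum_range, hd]
        simp only [Finset.sum_range_succ, Finset.sum_range_zero, hlead, zero_add, pow_zero, pow_one, one_smul,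
          zsmul_eq_mul, mul_one]
        linear_combination hα
      rw [← NumberField.Embeddings.range_eval_eq_rootSet_minpoly] at hmem
      obtain ⟨φ, hφ⟩ := hmem
      exact ⟨φ, hφ⟩
    set r := (ι a).re with hr
    set s := (φ a).re with hs
    have er : ι a = (r : ℂ) := hreal ι
    have es : φ a = (s : ℂ) := hreal φ
    have hsum : r + s = -b := by
      have : (r : ℂ) + s = -b := by rw [← er, ← es, hφ]; ring
      exact_mod_cast this
    have hprod : r * s = c := by
      have : (r : ℂ) * s = c := by rw [← er, ← es, hφ]; linear_combination -hα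
      exact_mod_cast this
    have nr : ‖ι a‖ ^ 2 = r ^ 2 := by rw [er, Complex.norm_real, Real.norm_eq_abs, sq_abs]
    have ns : ‖φ a‖ ^ 2 = s ^ 2 := by rw [es, Complex.norm_real, Real.norm_eq_abs, sq_abs]
    intro hf
    rw [fails_iff, nr] at hf
    have key : ∀ (T U : ℝ), 0 ≤ T → (q : ℝ) ^ 7 ≤ T ^ 64 → 1 ≤ q → q * (T + T⁻¹) ^ 2 ≤ U →
        r ^ 2 ≤ U ∧ s ^ 2 ≤ U := by
      intro T U hT0 hT hq1 hU
      have h1 := h.sq_le hq1 (by norm_num) (rpow_seven q hT0 hT) ι
      have h2 := h.sq_le hq1 (by norm_num) (rpow_seven q hT0 hT) φ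
      rw [nr] at h1
      rw [ns] at h2
      exact ⟨h1.trans hU, h2.trans hU⟩
    have hr0 : r ≠ 0 := by
      rintro h0
      rw [h0] at hf
      have : (0 : ℝ) ≤ 4 * q := by positivity
      norm_num at hf
      linarith
    fin_cases hq
    · obtain ⟨k1, k2⟩ := key 1.0788 8.0462 (by norm_num) (by norm_num) (by norm_num) (by norm_num)
      norm_num at hf
      rcases lt_or_gt_of_ne hr0 with h0 | h0
      · exact quad_two (-r) (-s) b c (by linarith) (by rw [neg_sq]; exact hf) (by rw [neg_sq]; exact k1)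
          (by rw [neg_sq]; exact k2) (by linarith) (by rw [neg_mul_neg]; exact hprod)
      · exact quad_two r s (-b) c h0 hf k1 k2 (by push_cast; exact hsum) hprod
    · obtain ⟨k1, k2⟩ := key 1.1277 12.1745 (by norm_num) (by norm_num) (by norm_num) (by norm_num)
      norm_num at hf
      rcases lt_or_gt_of_ne hr0 with h0 | h0
      · exact quad_three (-r) (-s) b c (by linarith) (by rw [neg_sq]; exact hf) (by rw [neg_sq]; exact k1)
          (by rw [neg_sq]; exact k2) (by linarith) (by rw [neg_mul_neg]; exact hprod)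
      · exact quad_three r s (-b) c h0 hf k1 k2 (by push_cast; exact hsum) hprod
    · obtain ⟨k1, k2⟩ := key 1.1638 16.3711 (by norm_num) (by norm_num) (by norm_num) (by norm_num)
      norm_num at hf
      rcases lt_or_gt_of_ne hr0 with h0 | h0
      · exact quad_four (-r) (-s) b c (by linarith) (by rw [neg_sq]; exact hf) (by rw [neg_sq]; exact k1)
          (by rw [neg_sq]; exact k2) (by linarith) (by rw [neg_mul_neg]; exact hprod)
      · exact quad_four r s (-b) c h0 hf k1 k2 (by push_cast; exact hsum) hprod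

end

end Pool.Agent.V8H88.SN
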